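import Pool.Agent.ObsNum.Hard

set_option autoImplicit false

namespace Pool.Agent.Results.MP_465931_lc.ObstacleNumberNPHard

open Pool.Agent.PAH (Plane)
open Pool.Agent.CookLevin (NPHard)
open Pool.Agent.ObsNum (IsTriangle obstacleNumber)

/-- For every class `𝒪` of connected sets which contains all non-degenerate closed triangles, for
instance the class of all closed polygonal regions, OBSTACLE NUMBER with obstacles from `𝒪` is
NP-hard: every problem in NP reduces to it in polynomial time. -/
theorem result (𝒪 : Set (Set Plane)) (h₁ : ∀ P, IsTriangle P → P ∈ 𝒪)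
    (h₂ : ∀ P ∈ 𝒪, IsPreconnected P) : NPHard (obstacleNumber 𝒪) :=
  Pool.Agent.ObsNum.hard 𝒪 h₁ h₂

end Pool.Agent.Results.MP_465931_lc.ObstacleNumberNPHard
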